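import Pool.Agent.Zk73.FQ.Gek

/-!
# Auxiliary primes over quadratic fields

Let `K` be a quadratic field of discriminant `d`, `p ≥ 7` a prime, `n` a multiple of `p` and `r ≠ p` a
prime number such that `x ^ n + y ^ n = z ^ n` has only solutions with `x y z = 0` in the residue
fields of `K` at the primes above `r`. If there are two primes above `r`, suppose moreover that every
`n`-th root of unity modulo `r` is an `n / p`-th root of unity (this is so if `r` is not `1` modulo
`p`), and that `n` is even, or `p` does not divide the Bernoulli number with index `p - 3`, or `- 15 d`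
is not a nonzero square modulo `p`. If `r ^ (p - 1)` is not congruent to `1` modulo `p ^ 2`, then the
first case of Fermat's Last Theorem holds over `K` for the exponent `n`.

All this is satisfied for all quadratic fields if `r = 2` and `6 p ∣ n`, if `r = 3` and `8 p ∣ n`, and
if `r = 5` and `8 p ∣ n` or `12 p ∣ n`; and if `2 p ∣ n` and `r` is `2`, `3` or `5` and not inert in `K`;
and if `r = 2` does not split in `K` and `3 p ∣ n`.

Proof. One of the three variables is divisible by a prime `P` above `r`, and one by the conjugate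
prime. The residues of the other variables are equal up to sign. So the norms of `x ^ k + ζ y ^ k` etc.
(`n = p k`, `ζ ^ p = 1`) are modulo `r` a number times a product of factors `1 ± ζ` and `ζ`, and the
relation of Stickelberger for a Jacobi sum `J (χ, χ ^ a)`, taken modulo `r` and modulo the square of
`1 - ζ`, gives a linear relation modulo `p` between the norms of `x ^ k`, `y ^ k`, `z ^ k`. If the two
variables are the same, the relations contradict each other; if not, the norms are as `2 : 2 : 3`.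
Then `- 15 d` is a square modulo `p`, and the relations of index three imply that `p` divides the
Bernoulli number with index `p - 3`. If `n` is even, the relations hold for the norms of
`z ^ (k / 2) + ζ y ^ (k / 2)` and of `z ^ (k / 2) - ζ y ^ (k / 2)`, and so do the relations with `x` in
place of `y`; they contradict each other.
-/

set_option autoImplicit false

namespace Pool.Agent.Results.MP_50a406_nt.AuxiliaryPrimes

open NumberField IsDedekindDomain

/-- `r` is an auxiliary prime for `K`, `p` and `n`: a prime number other than `p` such that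
`a ^ n + b ^ n = c ^ n` has only solutions with `a b c = 0` in the residue fields of `K` at the primes
above `r`; there is only one prime above `r`, or every `n`-th root of unity modulo `r` is an `n / p`-th
root of unity, and `n` is even, or `p` does not divide the Bernoulli number with index `p - 3`, or
`- 15 d` is not a nonzero square modulo `p`. -/
def Auxiliary (K : Type) [Field K] [NumberField K] (p n r : ℕ) : Prop :=
  r.Prime ∧ r ≠ p ∧
  (∀ v : HeightOneSpectrum (𝓞 K), ((r : ℕ) : 𝓞 K) ∈ v.asIdeal →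
    ∀ a b c : 𝓞 K ⧸ v.asIdeal, a ^ n + b ^ n = c ^ n → a * b * c = 0) ∧
  ((∀ v w : HeightOneSpectrum (𝓞 K), ((r : ℕ) : 𝓞 K) ∈ v.asIdeal →
      ((r : ℕ) : 𝓞 K) ∈ w.asIdeal → v = w) ∨
    ((∀ a : ZMod r, a ^ n = 1 → a ^ (n / p) = 1) ∧
      (Even n ∨ ¬ (p : ℤ) ∣ (bernoulli (p - 3)).num ∨
        ¬ ∃ s : ZMod p, s ≠ 0 ∧ s ^ 2 = -15 * (NumberField.discr K : ZMod p))))

/-- the explicit cases with `r = 2, 3, 5`, for a quadratic field of discriminant `d` -/
def Explicit (d : ℤ) (p n r : ℕ) : Prop :=
  (r = 2 ∧ (6 * p ∣ n ∨ (3 * p ∣ n ∧ d % 8 ≠ 1) ∨ (2 * p ∣ n ∧ d % 8 ≠ 5))) ∨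
  (r = 3 ∧ (8 * p ∣ n ∨ (2 * p ∣ n ∧ d % 3 ≠ 2))) ∨
  (r = 5 ∧ (8 * p ∣ n ∨ 12 * p ∣ n ∨ (2 * p ∣ n ∧ d % 5 ≠ 2 ∧ d % 5 ≠ 3)))

theorem result (K : Type) [Field K] [NumberField K] (hK : Module.finrank ℚ K = 2)
    (p n r : ℕ) (hp : p.Prime) (h7 : 7 ≤ p) (hn : p ∣ n) (hW : ¬ p ^ 2 ∣ r ^ (p - 1) - 1)
    (hr : Auxiliary K p n r ∨ Explicit (NumberField.discr K) p n r)
    (x y z : K) (h : x ^ n + y ^ n = z ^ n) (hx : x ≠ 0) (hy : y ≠ 0) (hz : z ≠ 0) :
    ∃ v : HeightOneSpectrum (𝓞 K), ((p : ℕ) : 𝓞 K) ∈ v.asIdeal ∧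
      ¬ (v.valuation K x = v.valuation K y ∧ v.valuation K y = v.valuation K z) := by
  by_contra hcon
  push Not at hcon
  rcases hr with ⟨hr, hrp, hno, hs⟩ | hc
  · refine Zk73.FQ.gef hp h7 hK hn hr hrp hW hno ?_ hx hy hz h hcon
    rcases hs with hs | ⟨h1, h2⟩
    · left
      intro P hP hrP u hu
      obtain ⟨σ, hN, hT⟩ := Pool.Agent.Y546.SG.exists_conj hK
      have hbot : ∀ Q : Ideal (𝓞 K), ((r : ℕ) : 𝓞 K) ∈ Q → Q ≠ ⊥ := by
        rintro Q hQ rfl
        rw [Ideal.mem_bot] at hQ
        exact hr.ne_zero (by exact_mod_cast hQ)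
      have hrP' : ((r : ℕ) : 𝓞 K) ∈ P.comap σ := by
        rw [Ideal.mem_comap, map_natCast]
        exact hrP
      have h1 := hs ⟨P, hP, hbot P hrP⟩ ⟨P.comap σ, hP.comap σ, hbot _ hrP'⟩ hrP hrP'
      have h2 : P = P.comap σ := congrArg HeightOneSpectrum.asIdeal h1
      rw [h2, Ideal.mem_comap]
      rw [hT, add_sub_cancel_left] at hu
      exact hu
    · refine Or.inr ⟨h1, h2.imp_right (Or.imp_left fun h3 hk => h3 ?_)⟩
      unfold Y546.WQ.irr at hk
      exact (Finset.mem_filter.1 hk).2.2.2.2
  · exact Zk73.FQ.expl hp h7 hK hW hc hx hy hz h hcon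

end Pool.Agent.Results.MP_50a406_nt.AuxiliaryPrimes
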