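import Pool.Agent.Zk43.FQ.PatMain

/-!
# Exponents divisible by three: the first case over all quadratic fields

Let `K` be any quadratic field and let `p ≥ 5` be any prime which is not `1` or `-1` modulo nine.
Let `n` be divisible by `3 p` and let `x ^ n + y ^ n = z ^ n` with `x, y, z` in `K` nonzero. Then the
primes of `K` above three and the primes of `K` above `p` divide the same variables: for every
prime `P` above three there is a prime `v` above `p` which divides the same variable, and for every
prime `v` above `p` there is a prime `P` above three which divides the same variable. In particular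
every prime above `p` divides one of the variables, so the first case of Fermat's Last Theorem
holds over `K` for the exponent `n` at each prime above `p` and not only at one of them. There is no
condition on `K` and no condition of Bernoulli or Wieferich type.

Proof. Let `n = 3 p`. For every prime `P` above three the equation is impossible modulo `P` times
three if the variables are prime to `P`, so `P` divides exactly one of them. For a variable `x` let
`b = (z ^ (3 p) - y ^ (3 p)) / (z ^ 3 - y ^ 3)`. All valuations of `b` are divisible by three,
except that at the primes above `p` which divide `x` they are those of `p` times a cube. So the norm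
of `b` is `p ^ j` times the cube of a rational number, where `j` is the number of the divisibilities
of `x` and of the conjugate of `x` by a prime above `p`. On the other hand, at a prime above three
`b` is congruent to `p` times a cube if this prime divides `x`, and to a cube if it divides `y` or
`z`; so the norm of `b` is congruent to `p ^ k` times a cube, where `k` is the same number for a
prime above three. As `p` and `p ^ 2` are not cubes modulo nine, `j = k`.
-/

set_option autoImplicit false

namespace Pool.Agent.Results.MP_50a406_nt.ExponentsThreeP

open NumberField IsDedekindDomain Pool.Agent.Zk43.FQ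

/-- the prime `v` divides `a` to a higher power than `b` and `c`, which it divides to the same
power -/
def Divides {K : Type} [Field K] [NumberField K] (v : HeightOneSpectrum (𝓞 K)) (a b c : K) : Prop :=
  v.valuation K a < v.valuation K b ∧ v.valuation K b = v.valuation K c

/-- the primes `P` and `v` divide the same one of `x`, `y` and `z` -/
def Same {K : Type} [Field K] [NumberField K] (P v : HeightOneSpectrum (𝓞 K)) (x y z : K) : Prop :=
  (Divides P x y z ∧ Divides v x y z) ∨ (Divides P y x z ∧ Divides v y x z) ∨
    (Divides P z x y ∧ Divides v z x y)

theorem result (K : Type) [Field K] [NumberField K] (hK : Module.finrank ℚ K = 2)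
    (p n : ℕ) (hp : p.Prime) (h5 : 5 ≤ p) (h9 : p % 9 ≠ 1 ∧ p % 9 ≠ 8) (hn : 3 * p ∣ n)
    (x y z : K) (h : x ^ n + y ^ n = z ^ n) (hx : x ≠ 0) (hy : y ≠ 0) (hz : z ≠ 0) :
    (∀ P : HeightOneSpectrum (𝓞 K), (3 : 𝓞 K) ∈ P.asIdeal →
      ∃ v : HeightOneSpectrum (𝓞 K), ((p : ℕ) : 𝓞 K) ∈ v.asIdeal ∧ Same P v x y z) ∧
    (∀ v : HeightOneSpectrum (𝓞 K), ((p : ℕ) : 𝓞 K) ∈ v.asIdeal →
      ∃ P : HeightOneSpectrum (𝓞 K), (3 : 𝓞 K) ∈ P.asIdeal ∧ Same P v x y z) :=
  pattern_three hK p n hp h5 h9 hn x y z hx hy hz h

end Pool.Agent.Results.MP_50a406_nt.ExponentsThreeP
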