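import Pool.Agent.Zk73.FQ.Dat

/-!
# The two theorems of Furtwängler over quadratic fields

Let `K` be a quadratic field, `p` an odd prime, `n` a multiple of `p` and `x ^ n + y ^ n = z ^ n` a solution in `K` with
`x y z ≠ 0` in the first case (`x, y, z` have the same valuations at the primes above `p`). Let `r` be a prime number. Then
`r ^ (p - 1)` is congruent to `1` modulo `p ^ 2`

* if one of `x, y, z`, after the common factors are removed, is divisible by all the primes of `K` above `r`; and
* if for two of `x, y, z`, say `a` and `b`, all primes of `K` above `r` divide `(a / b) ^ 2 - 1`, and the norm of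
  `(a / b) ^ (n / p)` is not congruent to `1` modulo `p`.

There is no other condition: none on the class number, the units and the discriminant of `K`, none on the regularity of `p`, and
`p` may ramify or split in `K`. If only one prime of `K` lies above `r`, then it suffices that it divides one of `x, y, z`: the
solutions in the first case are prime to all inert and all ramified primes above prime numbers `r` with `r ^ (p - 1)` not
congruent to `1` modulo `p ^ 2`. Over `ℚ` these are the theorems of Furtwängler (1912), which he deduced from the law of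
reciprocity of Eisenstein and which contain the criteria of Wieferich (`r = 2`) and Mirimanoff (`r = 3`).

Proof. Let `X ^ p + Y ^ p + Z ^ p = 0` in the integers of `K`, prime to `p`, let `A, B, G` be the norms of `X, Y, Z` and `t` the
trace of `X` times the conjugate of `Y`. The norm `A + t ζ + B ζ ^ 2` of `X + ζ Y` to the field of `p`-th roots of unity is a
rational number times the `p`-th power of an ideal. By the factorisation of the Jacobi sums `J (χ, χ ^ a)` the product of the
conjugates of this number under the inverses `s` of the elements of a set `H (a)` is `ζ ^ i` times a `p`-th power. Modulo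
`(1 - ζ) ^ 2` this gives `i (A + t + B) = (t + 2 B) h (a)` modulo `p`, `h (a)` the sum of the `s`. If all primes above `r` divide
`X`, then the number is congruent to `B ζ ^ 2` modulo `r`. Comparing the relation with its complex conjugate modulo a prime
above `r`, one gets `i = 2 h (a)` modulo `p`, or `r ^ (p - 1) = 1` modulo `p ^ 2`. The sum of the `h (a)`, `1 ≤ a ≤ p - 2`, is `-1`
modulo `p`, so some `h (a)` is not zero, and `2 (A + t + B) = t + 2 B`; here `A + t + B = G`. In the same way
`2 B = B - A + G`, as `X` and `Z` can be exchanged. So `A = 0` modulo `p`, a contradiction. In the second theorem the number is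
congruent to `A (1 ± ζ) ^ 2` or `A (1 - ζ ^ 2)`, and one gets `i = h (a)`, and then `A = B` modulo `p`.
-/

set_option autoImplicit false

namespace Pool.Agent.Results.MP_50a406_nt.FurtwaenglerQuadratic

open NumberField IsDedekindDomain

/-- All primes above `r` divide `w`, after the common factors of `w`, `a`, `b` are removed. -/
def DividedBy {K : Type} [Field K] [NumberField K] (r : ℕ) (w a b : K) : Prop :=
  ∀ v : HeightOneSpectrum (𝓞 K), ((r : ℕ) : 𝓞 K) ∈ v.asIdeal →
    v.valuation K w < v.valuation K a ∨ v.valuation K w < v.valuation K b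

/-- `a` and `b` have the same valuations at the primes above `r`, and `(a / b) ^ 2` is one modulo these primes. -/
def SameSquares {K : Type} [Field K] [NumberField K] (r : ℕ) (a b : K) : Prop :=
  ∀ v : HeightOneSpectrum (𝓞 K), ((r : ℕ) : 𝓞 K) ∈ v.asIdeal →
    v.valuation K a = v.valuation K b ∧ v.valuation K (a ^ 2 - b ^ 2) < v.valuation K (b ^ 2)

theorem SameSquares.pow {K : Type} [Field K] [NumberField K] {r : ℕ} {a b : K} (h : SameSquares r a b)
    (k : ℕ) (hk : k ≠ 0) (v : HeightOneSpectrum (𝓞 K)) (hv : ((r : ℕ) : 𝓞 K) ∈ v.asIdeal) :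
    v.valuation K (a ^ k) = v.valuation K (b ^ k) ∧
      v.valuation K ((a ^ k) ^ 2 - (b ^ k) ^ 2) < v.valuation K ((b ^ k) ^ 2) := by
  obtain ⟨h1, h2⟩ := h v hv
  refine ⟨by rw [map_pow, map_pow, h1], ?_⟩
  have e1 : (a ^ k) ^ 2 - (b ^ k) ^ 2 = (a ^ 2 - b ^ 2) *
      ∑ i ∈ Finset.range k, (a ^ 2) ^ i * (b ^ 2) ^ (k - 1 - i) := by
    rw [mul_comm, (Commute.all (a ^ 2) (b ^ 2)).geom_sum₂_mul, ← pow_mul, ← pow_mul, ← pow_mul, ← pow_mul,
      mul_comm k 2]
  have e2 : v.valuation K (∑ i ∈ Finset.range k, (a ^ 2) ^ i * (b ^ 2) ^ (k - 1 - i)) ≤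
      v.valuation K (b ^ 2) ^ (k - 1) := by
    refine Valuation.map_sum_le _ fun i hi => ?_
    rw [Finset.mem_range] at hi
    rw [map_mul, map_pow, map_pow, map_pow, h1, ← map_pow, ← pow_add]
    apply le_of_eq
    congr 1
    omega
  have e3 : v.valuation K (b ^ 2) ≠ 0 := (lt_of_le_of_lt zero_le h2).ne'
  have e4 : v.valuation K ((b ^ k) ^ 2) = v.valuation K (b ^ 2) * v.valuation K (b ^ 2) ^ (k - 1) := by
    rw [← pow_succ', Nat.sub_add_cancel (Nat.one_le_iff_ne_zero.2 hk), ← map_pow, ← pow_mul, ← pow_mul,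
      mul_comm]
  rw [e1, map_mul, e4]
  refine lt_of_le_of_lt (mul_le_mul_right e2 _) ?_
  exact mul_lt_mul_of_pos_right h2 (zero_lt_iff.2 (pow_ne_zero _ e3))

theorem key {K : Type} [Field K] [NumberField K] {p : ℕ} (hp : p ≠ 0) (v : HeightOneSpectrum (𝓞 K))
    {w a b : K} (h : w ^ p + a ^ p + b ^ p = 0)
    (hlt : v.valuation K w < v.valuation K a ∨ v.valuation K w < v.valuation K b) :
    v.valuation K w < v.valuation K a ∧ v.valuation K a = v.valuation K b := by
  have hv : ∀ a b : K, w ^ p + a ^ p + b ^ p = 0 → v.valuation K w < v.valuation K a →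
      v.valuation K a = v.valuation K b := by
    intro a b h hlt
    have h1 : v.valuation K (w ^ p) < v.valuation K (a ^ p) := by
      rw [map_pow, map_pow]
      exact pow_lt_pow_left₀ hlt zero_le hp
    have h2 := (v.valuation K).map_add_eq_of_lt_right h1
    have h3 : w ^ p + a ^ p = -b ^ p := by linear_combination h
    rw [h3, Valuation.map_neg, map_pow, map_pow] at h2
    exact ((pow_left_inj₀ zero_le zero_le hp).1 h2).symm
  rcases hlt with h1 | h1
  · exact ⟨h1, hv a b h h1⟩
  · have h2 := hv b a (by rw [← h]; ring) h1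
    exact ⟨by rw [← h2]; exact h1, h2.symm⟩

/-- **The theorems of Furtwängler over quadratic fields.** Let `K` be a quadratic field, `p` an odd prime, `p ∣ n`, and
`x ^ n + y ^ n = z ^ n` with `x, y, z ≠ 0` in `K` with the same valuations at all primes above `p` (first case). Suppose that
all primes of `K` above the prime number `r` divide the same one of `x, y, z` (after the common factors are removed), or that for
two of them, `a` and `b`, all primes above `r` divide `(a / b) ^ 2 - 1` and `N (a / b) ^ (n / p)` is not congruent to one modulo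
`p`, and that `r ≠ p`. Then `r ^ (p - 1)` is congruent to one modulo `p ^ 2`. -/
theorem result (K : Type) [Field K] [NumberField K] (hK : Module.finrank ℚ K = 2)
    (p n r : ℕ) (hp : p.Prime) (hp2 : p ≠ 2) (hn : p ∣ n) (hr : r.Prime) (hrp : r ≠ p)
    (x y z : K) (h : x ^ n + y ^ n = z ^ n) (hx : x ≠ 0) (hy : y ≠ 0) (hz : z ≠ 0)
    (hfirst : ∀ v : HeightOneSpectrum (𝓞 K), ((p : ℕ) : 𝓞 K) ∈ v.asIdeal →
      v.valuation K x = v.valuation K y ∧ v.valuation K y = v.valuation K z)
    (hdiv : (DividedBy r x y z ∨ DividedBy r y x z ∨ DividedBy r z x y) ∨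
      (SameSquares r x y ∧ ¬ (p : ℤ) ∣ (Algebra.norm ℚ (x / y) ^ (n / p) - 1).num) ∨
      (SameSquares r x z ∧ ¬ (p : ℤ) ∣ (Algebra.norm ℚ (x / z) ^ (n / p) - 1).num) ∨
      (SameSquares r y z ∧ ¬ (p : ℤ) ∣ (Algebra.norm ℚ (y / z) ^ (n / p) - 1).num)) :
    p ^ 2 ∣ r ^ (p - 1) - 1 := by
  have h3 : 3 ≤ p := by
    have := hp.two_le
    omega
  have hn0 : n ≠ 0 := by
    rintro rfl
    simp at h
  have hodd : Odd p := hp.odd_of_ne_two hp2
  obtain ⟨k, rfl⟩ := hn
  have hk0 : k ≠ 0 := fun hk => hn0 (by rw [hk, mul_zero])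
  have hF : (x ^ k) ^ p + (y ^ k) ^ p + (-z ^ k) ^ p = 0 := by
    rw [hodd.neg_pow, ← pow_mul, ← pow_mul, ← pow_mul, mul_comm k p, h]
    ring
  have hlt : ∀ (v : HeightOneSpectrum (𝓞 K)) (a b : K), v.valuation K a < v.valuation K b →
      v.valuation K (a ^ k) < v.valuation K (b ^ k) := by
    intro v a b hab
    rw [map_pow, map_pow]
    exact pow_lt_pow_left₀ hab zero_le hk0
  have hpe : ∀ (v : HeightOneSpectrum (𝓞 K)) (a b : K), v.valuation K a = v.valuation K b →
      v.valuation K (a ^ k) = v.valuation K (b ^ k) := by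
    intro v a b hab
    rw [map_pow, map_pow, hab]
  have xk := pow_ne_zero k hx
  have yk := pow_ne_zero k hy
  have zk := neg_ne_zero.2 (pow_ne_zero k hz)
  have hneg : ∀ (v : HeightOneSpectrum (𝓞 K)) (a : K), v.valuation K (-a) = v.valuation K a :=
    fun v a => Valuation.map_neg _ a
  have hlt' : ∀ (v : HeightOneSpectrum (𝓞 K)) (a b c : K),
      v.valuation K a < v.valuation K b ∨ v.valuation K a < v.valuation K c →
      v.valuation K (a ^ k) < v.valuation K (b ^ k) ∨ v.valuation K (a ^ k) < v.valuation K (c ^ k) :=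
    fun v a b c habc => habc.imp (hlt v a b) (hlt v a c)
  -- the three orders
  have hFy : (y ^ k) ^ p + (x ^ k) ^ p + (-z ^ k) ^ p = 0 := by rw [← hF]; ring
  have hFz : (-z ^ k) ^ p + (x ^ k) ^ p + (y ^ k) ^ p = 0 := by rw [← hF]; ring
  have f1 : ∀ v : HeightOneSpectrum (𝓞 K), ((p : ℕ) : 𝓞 K) ∈ v.asIdeal →
      v.valuation K (x ^ k) = v.valuation K (y ^ k) ∧
        v.valuation K (y ^ k) = v.valuation K (-z ^ k) := by
    intro v hv
    obtain ⟨h1, h2⟩ := hfirst v hv
    exact ⟨hpe v _ _ h1, by rw [hneg]; exact hpe v _ _ h2⟩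
  have f2 : ∀ v : HeightOneSpectrum (𝓞 K), ((p : ℕ) : 𝓞 K) ∈ v.asIdeal →
      v.valuation K (y ^ k) = v.valuation K (x ^ k) ∧
        v.valuation K (x ^ k) = v.valuation K (-z ^ k) := fun v hv =>
    ⟨(f1 v hv).1.symm, (f1 v hv).1.trans (f1 v hv).2⟩
  have f3 : ∀ v : HeightOneSpectrum (𝓞 K), ((p : ℕ) : 𝓞 K) ∈ v.asIdeal →
      v.valuation K (-z ^ k) = v.valuation K (x ^ k) ∧
        v.valuation K (x ^ k) = v.valuation K (y ^ k) := fun v hv =>
    ⟨((f1 v hv).1.trans (f1 v hv).2).symm, (f1 v hv).1⟩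
  have hkp : p * k / p = k := Nat.mul_div_cancel_left k hp.pos
  have hnm : ∀ a b : K, Algebra.norm ℚ (a ^ k / b ^ k) = Algebra.norm ℚ (a / b) ^ k := by
    intro a b
    rw [← div_pow, map_pow]
  have hN1 : Algebra.norm ℚ (-1 : K) = 1 := by
    have e : (-1 : K) = algebraMap ℚ K (-1) := by simp
    rw [e, Algebra.norm_algebraMap, hK]
    norm_num
  have hnmz : ∀ a b : K, Algebra.norm ℚ (-a ^ k / b ^ k) = Algebra.norm ℚ (a / b) ^ k := by
    intro a b
    have e : -a ^ k / b ^ k = -1 * (a ^ k / b ^ k) := by ring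
    rw [e, map_mul, hN1, one_mul, hnm]
  rcases hdiv with (hd | hd | hd) | ⟨hd, hN⟩ | ⟨hd, hN⟩ | ⟨hd, hN⟩
  · refine Zk73.FQ.furtK hp h3 hK xk yk zk hF f1 hr hrp (fun v hv => ?_)
    refine key hp.ne_zero v hF ?_
    rw [hneg]
    exact hlt' v _ _ _ (hd v hv)
  · refine Zk73.FQ.furtK hp h3 hK yk xk zk hFy f2 hr hrp (fun v hv => ?_)
    refine key hp.ne_zero v hFy ?_
    rw [hneg]
    exact hlt' v _ _ _ (hd v hv)
  · refine Zk73.FQ.furtK hp h3 hK zk xk yk hFz f3 hr hrp (fun v hv => ?_)
    refine key hp.ne_zero v hFz ?_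
    rw [hneg]
    exact hlt' v _ _ _ (hd v hv)
  · refine (Zk73.FQ.furt2K hp h3 hK xk yk zk hF f1 hr hrp fun v hv => hd.pow k hk0 v hv).resolve_right ?_
    rw [hnm, ← hkp]
    rwa [hkp] at hN ⊢
  · have hFx : (x ^ k) ^ p + (-z ^ k) ^ p + (y ^ k) ^ p = 0 := by rw [← hF]; ring
    refine (Zk73.FQ.furt2K hp h3 hK xk zk yk hFx (fun v hv => ⟨(f3 v hv).1.symm, (f3 v hv).1.trans (f3 v hv).2⟩)
      hr hrp fun v hv => ?_).resolve_right ?_
    · obtain ⟨h1, h2⟩ := hd.pow k hk0 v hv
      rw [hneg, neg_sq]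
      exact ⟨h1, h2⟩
    · have e : x ^ k / -z ^ k = -x ^ k / z ^ k := by rw [div_neg, neg_div]
      rw [e, hnmz]
      rwa [hkp] at hN
  · have hFx : (y ^ k) ^ p + (-z ^ k) ^ p + (x ^ k) ^ p = 0 := by rw [← hF]; ring
    refine (Zk73.FQ.furt2K hp h3 hK yk zk xk hFx (fun v hv => ⟨(f1 v hv).2, (f3 v hv).1⟩)
      hr hrp fun v hv => ?_).resolve_right ?_
    · obtain ⟨h1, h2⟩ := hd.pow k hk0 v hv
      rw [hneg, neg_sq]
      exact ⟨h1, h2⟩
    · have e : y ^ k / -z ^ k = -y ^ k / z ^ k := by rw [div_neg, neg_div]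
      rw [e, hnmz]
      rwa [hkp] at hN

end Pool.Agent.Results.MP_50a406_nt.FurtwaenglerQuadratic
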