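import Pool.Agent.Zk43.FQ.Sol

/-!
# The first case for even exponents over quadratic fields

Let `K = ℚ(√D)`, with `D ≠ 1` squarefree, and let `p ≥ 5` be a prime which is not congruent to a
divisor of `D` (to a positive divisor of `D`, if `D > 0`) modulo `8` (modulo `4`, if `D` is `5`
modulo `8`). Then the first case of Fermat's Last Theorem holds over `K` for all exponents
divisible by `2 p`. More precisely, in a solution the variable which is divisible by a given prime
above two is also divisible by a prime above `p`.

For instance this holds for `K = ℚ(√q)`, where `q = 2` or where `q` is a prime, `q = 1` modulo `8`,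
and all `p` which are not `1` modulo `8`; for `K = ℚ(√q)`, where `q` is a prime, `q = 5` modulo `8`,
and all `p` which are `3` modulo `4`; and for `K = ℚ(i)`, `K = ℚ(√-2)` and `K = ℚ(√-q)`, where `q`
is a prime, `q = 7` modulo `8`, and all `p` which are `3` or `5` modulo `8`. There is no condition
of Bernoulli or Wieferich type, and none on class numbers.

Proof. Let `x ^ (2 p) + y ^ (2 p) = z ^ (2 p)`, let `P` be a prime above two which divides `x`, and
suppose that no prime above `p` divides `x`. Then all valuations of
`b = (z ^ (2 p) - y ^ (2 p)) / (z ^ 2 - y ^ 2)` are even. The norm of `b` is a square, so `b` is a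
rational number times a square by Hilbert 90, and so it is an integer `m` times a square, where
`m` is squarefree, all its prime divisors are ramified in `K`, and `m` is positive if `K` is real.
On the other hand, `z / y` is `1` or `-1` modulo a high power of `P` and so `b` is `p` times a
square in the completion at `P`. The case that `P` divides `z` is similar. If two is inert then
there is the possibility that it divides none of `x, y, z`; then `z ^ 2 - y ^ 2` is `m` times a
square, and as `m` is one modulo four this is impossible modulo four.
-/

set_option autoImplicit false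

namespace Pool.Agent.Results.MP_50a406_nt.TerjanianQuadratic

open NumberField IsDedekindDomain Pool.Agent.Zk43.FQ

/-- the prime `v` divides `a` to a higher power than `b` and `c`, which it divides to the same
power -/
def Divides {K : Type} [Field K] [NumberField K] (v : HeightOneSpectrum (𝓞 K)) (a b c : K) : Prop :=
  v.valuation K a < v.valuation K b ∧ v.valuation K b = v.valuation K c

theorem result (K : Type) [Field K] [NumberField K] (hK : Module.finrank ℚ K = 2)
    (D : ℤ) (hD : Squarefree D) (hD1 : D ≠ 1) (hr : ∃ r : K, r ^ 2 = (D : K))
    (p n : ℕ) (hp : p.Prime) (h5 : 5 ≤ p)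
    (hd : ∀ m : ℤ, m ∣ D → (0 < D → 0 < m) → ¬ m ≡ p [ZMOD (if D % 8 = 5 then 4 else 8)])
    (hn : 2 * p ∣ n) (x y z : K) (h : x ^ n + y ^ n = z ^ n) (hx : x ≠ 0) (hy : y ≠ 0) (hz : z ≠ 0)
    (P : HeightOneSpectrum (𝓞 K)) (hP : (2 : 𝓞 K) ∈ P.asIdeal) :
    ∃ v : HeightOneSpectrum (𝓞 K), ((p : ℕ) : 𝓞 K) ∈ v.asIdeal ∧
      ((Divides P x y z ∧ Divides v x y z) ∨ (Divides P y x z ∧ Divides v y x z) ∨
        (Divides P z x y ∧ Divides v z x y)) := by
  obtain ⟨r, hr⟩ := hr
  exact QF.mainN (K := K) (D := D) (r := r) ⟨hK, hD, hD1, hr⟩ p n hp h5 hd hn x y z hx hy hz h P hP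

end Pool.Agent.Results.MP_50a406_nt.TerjanianQuadratic
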